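import Mathlib
import Pool.Agent.H72.AP.Core
import Pool.Agent.H72.AP.Connect
import Pool.Agent.H72.AP.Two
import Pool.Graph.R_seed8.H661R3.OP.PAP

/-!
# Residues modulo `p` as products of two almost primes `≤ p ^ (1 + ε)` with prescribed parities

The question of Erdős, Odlyzko and Sárközy: is every `x` prime to `p` congruent modulo `p` to a product of
two primes `< p`? We show that for all the primes `p` in `[X, X ^ (1 + κ)]`, with at most ONE exception,
every `x` is a product modulo `p` of two almost primes `a₁, a₂ ≤ p ^ (1 + ε)` (products of at most `R`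
primes, all larger than `p ^ δ`) with an odd number of prime factors each, as it is the case for primes;
more generally, with any prescribed parities of the numbers of their prime factors belonging to an
arbitrary set of primes which contains some prime `≡ 1` modulo `6` in a certain range.

Method. Let `B_t` be the set of the classes modulo `p` of the rough integers with label `t` in `ZMod 2`. If
`x` is not in `B_{t₁} B_{t₂}` then `|B_{t₁}| + |B_{t₂}| ≤ p - 1`. Multiplication by a rough `l` of label `1`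
shows that the cardinalities of `B_0` and `B_1` (up to `y / l`) are at most those of both `B_{t₁}`,
`B_{t₂}` (up to `y`); since there are rough integers in all the classes, `B_0` and `B_1` must be disjoint,
and the label is a function of the class modulo `p` (`Pool.Agent.H72.AP.Two`). For two different primes
`p₁, p₂` in the window this implies, by a chain of rough integers which are in turn congruent modulo `p₁`
and modulo `p₂`, that the label is the same for all the rough integers `≡ 1` modulo `6`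
(`Pool.Agent.H72.AP.Connect`), a contradiction.
-/

set_option autoImplicit false

open Finset

namespace Pool.Agent.Results.MP_de0709_nt.PrescribedParity

open Pool.Agent.H72.AP
open Pool.Agent.H72.CG (SVG exists_SVG)

/-- `a > 1` is a product of at most `R` primes, all larger than `z`, `a ≤ y`, and the sum in `ZMod 2` of the
labels `Φ` of its prime factors (with multiplicity) is `t` -/
def AlmostPrimeWith (Φ : ℕ → ZMod 2) (R : ℕ) (z y : ℝ) (t : ZMod 2) (a : ℕ) : Prop :=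
  1 < a ∧ (a : ℝ) ≤ y ∧ a.primeFactorsList.length ≤ R ∧ (∀ l : ℕ, l.Prime → l ∣ a → z < l) ∧
    label Φ a = t

/-- every `x` coprime to `p` is congruent modulo `p` to products `a₁ a₂`, `a₁, a₂ ≤ p ^ (1 + ε)`, with any
prescribed labels `t₁, t₂` of `a₁, a₂` -/
def EveryResidue (Φ : ℕ → ZMod 2) (R : ℕ) (δ ε : ℝ) (p : ℕ) : Prop :=
  ∀ x : ℕ, x.Coprime p → ∀ t₁ t₂ : ZMod 2, ∃ a₁ a₂ : ℕ,
    AlmostPrimeWith Φ R ((p : ℝ) ^ δ) ((p : ℝ) ^ (1 + ε)) t₁ a₁ ∧
    AlmostPrimeWith Φ R ((p : ℝ) ^ δ) ((p : ℝ) ^ (1 + ε)) t₂ a₂ ∧ a₁ * a₂ ≡ x [MOD p]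

/-- the label of the `u ≤ y` coprime to `p`, without prime factors `≤ z`, is a function of `u` modulo `p` -/
def Determined (Φ : ℕ → ZMod 2) (z y : ℝ) (p : ℕ) : Prop :=
  ∀ u v : ℕ, 0 < u → 0 < v → (u : ℝ) ≤ y → (v : ℝ) ≤ y → (∀ l : ℕ, l.Prime → l ∣ u * v → z < l) →
    u.Coprime p → v.Coprime p → u ≡ v [MOD p] → label Φ u = label Φ v

/-- **Products of two almost primes with prescribed parities.** Let `ε > 0`. There are `R` and
`δ, η, κ > 0` such that for all large `X`: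

(1) there is a prime `l ≡ 1` modulo `6` with `X ^ (2 δ) < l ≤ X ^ (4 δ)`;

(2) for all labels `Φ` of the primes in `ZMod 2` such that `Φ l = 1` for some such `l` (for instance `Φ = 1`):
for all the primes `p` in `[X, X ^ (1 + κ)]`, with at most one exception, every `x` coprime to `p` is
congruent modulo `p` to a product `a₁ a₂` of two integers `1 < a₁, a₂ ≤ p ^ (1 + ε)`, both products of at
most `R` primes, all larger than `p ^ δ`, with any prescribed sums `t₁`, `t₂` of the labels of their prime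
factors; and for an exception `p` the label of the integers `u ≤ X ^ (1 + η)` coprime to `p` and without
prime factors `≤ X ^ (2 δ)` is a function of `u` modulo `p`. -/
theorem result (ε : ℝ) (hε : 0 < ε) :
    ∃ (R : ℕ) (δ η κ : ℝ), 0 < δ ∧ 0 < η ∧ 0 < κ ∧ ∃ X₀ : ℝ, ∀ X : ℝ, X₀ ≤ X →
      (∃ l : ℕ, l.Prime ∧ X ^ (2 * δ) < l ∧ (l : ℝ) ≤ X ^ (4 * δ) ∧ l ≡ 1 [MOD 6]) ∧
      ∀ Φ : ℕ → ZMod 2,
        (∃ l : ℕ, l.Prime ∧ X ^ (2 * δ) < l ∧ (l : ℝ) ≤ X ^ (4 * δ) ∧ l ≡ 1 [MOD 6] ∧ Φ l = 1) →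
        {p : ℕ | p.Prime ∧ X ≤ p ∧ (p : ℝ) ≤ X ^ (1 + κ) ∧
          ¬ EveryResidue Φ R δ ε p}.Subsingleton ∧
        ∀ p : ℕ, p.Prime → X ≤ p → (p : ℝ) ≤ X ^ (1 + κ) → ¬ EveryResidue Φ R δ ε p →
          Determined Φ (X ^ (2 * δ)) (X ^ (1 + η)) p := by
  classical
  obtain ⟨C₁, hC₁⟩ := exists_SVG 1 le_rfl
  obtain ⟨C₂, hC₂⟩ := exists_SVG 2 (by norm_num)
  obtain ⟨C, hCdef⟩ : ∃ C : ℕ, C = max C₁ C₂ := ⟨_, rfl⟩
  have hS1 : SVG 1 C := by
    intro Y hY S h1 h2 T₀ T hT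
    have hpow : Y ^ C₁ ≤ Y ^ C := Nat.pow_le_pow_right (by omega) (by rw [hCdef]; exact le_max_left _ _)
    exact (hC₁ Y hY S h1 h2 T₀ T (hpow.trans hT)).trans (Nat.mul_le_mul_right _ hpow)
  have hS2 : SVG 2 C := by
    intro Y hY S h1 h2 T₀ T hT
    have hpow : Y ^ C₂ ≤ Y ^ C := Nat.pow_le_pow_right (by omega) (by rw [hCdef]; exact le_max_right _ _)
    exact (hC₂ Y hY S h1 h2 T₀ T (hpow.trans hT)).trans (Nat.mul_le_mul_right _ hpow)
  obtain ⟨η, hη⟩ : ∃ η : ℝ, η = ε / 2 := ⟨_, rfl⟩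
  have hη0 : 0 < η := by rw [hη]; positivity
  obtain ⟨κ, hκ⟩ : ∃ κ : ℝ, κ = min (η / 4) (1 / 4) := ⟨_, rfl⟩
  have hκ0 : 0 < κ := by rw [hκ]; exact lt_min (by positivity) (by norm_num)
  have hκη : κ ≤ η / 4 := by rw [hκ]; exact min_le_left _ _
  have hκ4 : κ ≤ 1 / 4 := by rw [hκ]; exact min_le_right _ _
  obtain ⟨δ, hδ⟩ : ∃ δ : ℝ, δ = min (ε / 16) (min (1 / 16) (κ / (2 * (C + 1)))) := ⟨_, rfl⟩
  have hC0 : (0 : ℝ) < 2 * ((C : ℝ) + 1) := by positivity
  have hδ0 : 0 < δ := by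
    rw [hδ]; exact lt_min (by positivity) (lt_min (by norm_num) (by positivity))
  have hδε : 8 * δ ≤ ε / 2 := by
    have : δ ≤ ε / 16 := by rw [hδ]; exact min_le_left _ _
    linarith
  have hδ16 : δ ≤ 1 / 16 := by rw [hδ]; exact (min_le_right _ _).trans (min_le_left _ _)
  have hδC : 2 * δ * C ≤ κ := by
    have h1 : δ ≤ κ / (2 * (C + 1)) := by
      rw [hδ]; exact (min_le_right _ _).trans (min_le_right _ _)
    rw [le_div_iff₀ hC0] at h1
    nlinarith
  obtain ⟨Y₀, hY₀⟩ := Pool.Agent.H661R3.OP.t_PAP 6 (by norm_num)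
  have l0 : ∀ᶠ x : ℝ in Filter.atTop, ((Y₀ : ℝ) + 1) ≤ x ^ (2 * δ) :=
    (tendsto_rpow_atTop (by positivity)).eventually_ge_atTop _
  have l1 : ∀ᶠ x : ℝ in Filter.atTop, (2 : ℝ) ≤ x ^ (2 * δ) :=
    (tendsto_rpow_atTop (by positivity)).eventually_ge_atTop _
  have l2 : ∀ᶠ x : ℝ in Filter.atTop, (31 : ℝ) ≤ x ^ (η / 2) :=
    (tendsto_rpow_atTop (by positivity)).eventually_ge_atTop _
  have l3 : ∀ᶠ x : ℝ in Filter.atTop, (3 : ℝ) ≤ x ^ (3 / 4 : ℝ) :=
    (tendsto_rpow_atTop (by norm_num)).eventually_ge_atTop _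
  obtain ⟨x₁, hx₁⟩ := Filter.eventually_atTop.mp (l0.and (l1.and (l2.and l3)))
  refine ⟨⌈(1 + ε) / δ⌉₊, δ, η, κ, hδ0, hη0, hκ0, max x₁ 4, ?_⟩
  intro X hX
  have hXx₁ : x₁ ≤ X := (le_max_left _ _).trans hX
  have hX4 : (4 : ℝ) ≤ X := (le_max_right _ _).trans hX
  have hX0 : (0 : ℝ) < X := by linarith
  have hX1 : (1 : ℝ) ≤ X := by linarith
  have hX1' : (1 : ℝ) < X := by linarith
  obtain ⟨b0, b1, b2, b3⟩ := hx₁ X hXx₁
  constructor
  · obtain ⟨p, hp, hp1, hp2, hp3⟩ := hY₀ ⌊X ^ (2 * δ)⌋₊ (by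
      apply Nat.le_floor
      linarith)
    refine ⟨p, hp, ?_, ?_, ?_⟩
    · have : ⌊X ^ (2 * δ)⌋₊ + 1 ≤ p := hp1
      calc X ^ (2 * δ) < (⌊X ^ (2 * δ)⌋₊ : ℝ) + 1 := Nat.lt_floor_add_one _
        _ ≤ p := by exact_mod_cast this
    · calc (p : ℝ) ≤ ((⌊X ^ (2 * δ)⌋₊ ^ 2 : ℕ) : ℝ) := by exact_mod_cast hp2
        _ = (⌊X ^ (2 * δ)⌋₊ : ℝ) ^ 2 := by push_cast; rfl
        _ ≤ (X ^ (2 * δ)) ^ 2 :=
          pow_le_pow_left₀ (by positivity) (Nat.floor_le (by positivity)) 2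
        _ = X ^ (4 * δ) := by
          rw [← Real.rpow_natCast (X ^ (2 * δ)) 2, ← Real.rpow_mul hX0.le]
          congr 1
          push_cast
          ring
    · apply Nat.ModEq.symm
      rw [Nat.modEq_iff_dvd]
      simpa using hp3
  intro Φ hΦ
  obtain ⟨l, hl, hl1, hl2, hl6, hΦl⟩ := hΦ
  obtain ⟨Y, hY⟩ : ∃ Y : ℕ, Y = ⌊X ^ (2 * δ)⌋₊ := ⟨_, rfl⟩
  have hY2 : 2 ≤ Y := by
    rw [hY]
    exact Nat.le_floor (by exact_mod_cast b1)
  have hYz : (Y : ℝ) ≤ X ^ (2 * δ) := by rw [hY]; exact Nat.floor_le (by positivity)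
  have hzY : X ^ (2 * δ) < (Y : ℝ) + 1 := by rw [hY]; exact Nat.lt_floor_add_one _
  obtain ⟨y, hy⟩ : ∃ y : ℕ, y = ⌊X ^ (1 + η)⌋₊ := ⟨_, rfl⟩
  have hyle : (y : ℝ) ≤ X ^ (1 + η) := by rw [hy]; exact Nat.floor_le (by positivity)
  have hYC : ((Y ^ C : ℕ) : ℝ) ≤ X ^ κ := by
    push_cast
    calc (Y : ℝ) ^ C ≤ (X ^ (2 * δ)) ^ C := pow_le_pow_left₀ (Nat.cast_nonneg _) hYz C
      _ = X ^ (2 * δ * C) := by
        rw [← Real.rpow_natCast (X ^ (2 * δ)) C, ← Real.rpow_mul hX0.le]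
      _ ≤ X ^ κ := Real.rpow_le_rpow_of_exponent_le hX1 hδC
  have hXκ1 : (1 : ℝ) ≤ X ^ κ := Real.one_le_rpow hX1 hκ0.le
  have hXκ : 2 * X ^ κ < X := by
    have h1 : X ^ κ ≤ X ^ (1 / 4 : ℝ) := Real.rpow_le_rpow_of_exponent_le hX1 hκ4
    have h2 : X ^ (1 / 4 : ℝ) * X ^ (3 / 4 : ℝ) = X := by
      rw [← Real.rpow_add hX0]
      norm_num
    have h3 : (0 : ℝ) < X ^ (1 / 4 : ℝ) := by positivity
    nlinarith
  have hδX : X ^ (2 * δ) < X := by
    calc X ^ (2 * δ) < X ^ (1 : ℝ) := Real.rpow_lt_rpow_of_exponent_lt hX1' (by linarith)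
      _ = X := Real.rpow_one X
  have hlX : (l : ℝ) < X := by
    calc (l : ℝ) ≤ X ^ (4 * δ) := hl2
      _ < X ^ (1 : ℝ) := Real.rpow_lt_rpow_of_exponent_lt hX1' (by linarith)
      _ = X := Real.rpow_one X
  have hrl : RoughN Y l := by
    intro p hp hd
    rw [(Nat.prime_dvd_prime_iff_eq hp hl).1 hd]
    exact_mod_cast hYz.trans_lt hl1
  have hlabl : label Φ l = 1 := by
    unfold label
    rw [Nat.primeFactorsList_prime hl]
    simpa using hΦl
  -- the size of the rough numbers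
  have hsize : ∀ p₁ p₂ : ℕ, (p₁ : ℝ) ≤ X ^ (1 + κ) → (p₂ : ℝ) ≤ X ^ (1 + κ) →
      6 * p₁ * (2 * Y ^ C + 1) + 12 * p₂ ≤ y := by
    intro p₁ p₂ h₁ h₂
    rw [hy]
    apply Nat.le_floor
    push_cast
    push_cast at hYC
    have e1 : (6 : ℝ) * p₁ * (2 * Y ^ C + 1) ≤ 6 * X ^ (1 + κ) * (3 * X ^ κ) := by
      apply mul_le_mul _ _ (by positivity) (by positivity)
      · linarith
      · linarith
    have e2 : (12 : ℝ) * p₂ ≤ 12 * X ^ (1 + κ) * X ^ κ := by
      have h1 : (12 : ℝ) * p₂ ≤ 12 * X ^ (1 + κ) := by linarith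
      have h2 : (0 : ℝ) ≤ 12 * X ^ (1 + κ) := by positivity
      nlinarith
    have e3 : X ^ (1 + κ) * X ^ κ ≤ X ^ (1 + η / 2) := by
      rw [← Real.rpow_add hX0]
      apply Real.rpow_le_rpow_of_exponent_le hX1
      linarith
    have e4 : X ^ (1 + η) = X ^ (1 + η / 2) * X ^ (η / 2) := by
      rw [← Real.rpow_add hX0]
      congr 1
      ring
    have e5 : (0 : ℝ) < X ^ (1 + η / 2) := by positivity
    have e6 : X ^ (1 + η / 2) * 31 ≤ X ^ (1 + η / 2) * X ^ (η / 2) :=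
      mul_le_mul_of_nonneg_left b2 e5.le
    rw [e4]
    calc (6 : ℝ) * p₁ * (2 * Y ^ C + 1) + 12 * p₂
        ≤ 6 * X ^ (1 + κ) * (3 * X ^ κ) + 12 * X ^ (1 + κ) * X ^ κ := add_le_add e1 e2
      _ = 30 * (X ^ (1 + κ) * X ^ κ) := by ring
      _ ≤ 30 * X ^ (1 + η / 2) := by linarith
      _ ≤ X ^ (1 + η / 2) * 31 := by linarith
      _ ≤ _ := e6
  -- for an exception the label is a function of the class
  have hper : ∀ p : ℕ, p.Prime → X ≤ p → (p : ℝ) ≤ X ^ (1 + κ) →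
      ¬ EveryResidue Φ ⌈(1 + ε) / δ⌉₊ δ ε p → Per (label Φ) Y y p ⊥ := by
    intro p hp hpX hpX' hnot
    have : NeZero p := ⟨hp.ne_zero⟩
    have hpr : (1 : ℝ) < p := by linarith
    have hp0 : (0 : ℝ) < p := by linarith
    have hlp : l.Coprime p := by
      rw [Nat.coprime_comm, hp.coprime_iff_not_dvd]
      intro hd
      have h1 := Nat.le_of_dvd hl.pos hd
      have h2 : (p : ℝ) ≤ l := by exact_mod_cast h1
      linarith
    unfold EveryResidue at hnot
    push Not at hnot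
    obtain ⟨x, hx, t₁, t₂, hno⟩ := hnot
    have hYC0 : 0 < Y ^ C := by positivity
    have hpδ : (p : ℝ) ^ δ ≤ X ^ (2 * δ) := by
      calc (p : ℝ) ^ δ ≤ (X ^ (1 + κ)) ^ δ := Real.rpow_le_rpow (Nat.cast_nonneg _) hpX' hδ0.le
        _ = X ^ ((1 + κ) * δ) := (Real.rpow_mul hX0.le _ _).symm
        _ ≤ X ^ (2 * δ) := by
          apply Real.rpow_le_rpow_of_exponent_le hX1
          apply mul_le_mul_of_nonneg_right _ hδ0.le
          linarith
    have hgood : ∀ (a : ℕ) (t : ZMod 2), 1 < a → a ≤ y * l * l → RoughN Y a → label Φ a = t →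
        AlmostPrimeWith Φ ⌈(1 + ε) / δ⌉₊ ((p : ℝ) ^ δ) ((p : ℝ) ^ (1 + ε)) t a := by
      intro a t ha1 hay har hat
      have hle : (a : ℝ) ≤ (p : ℝ) ^ (1 + ε) := by
        have h1 : (a : ℝ) ≤ y * l * l := by exact_mod_cast hay
        have h2 : (y : ℝ) * l * l ≤ X ^ (1 + η) * X ^ (4 * δ) * X ^ (4 * δ) := by
          apply mul_le_mul _ hl2 (Nat.cast_nonneg _) (by positivity)
          exact mul_le_mul hyle hl2 (Nat.cast_nonneg _) (by positivity)
        have h3 : X ^ (1 + η) * X ^ (4 * δ) * X ^ (4 * δ) ≤ X ^ (1 + ε) := by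
          rw [← Real.rpow_add hX0, ← Real.rpow_add hX0]
          apply Real.rpow_le_rpow_of_exponent_le hX1
          rw [hη]
          linarith
        have h4 : X ^ (1 + ε) ≤ (p : ℝ) ^ (1 + ε) := Real.rpow_le_rpow hX0.le hpX (by positivity)
        linarith
      have hr : ∀ k : ℕ, k.Prime → k ∣ a → (p : ℝ) ^ δ < k := by
        intro k hk hd
        have h6 : Y + 1 ≤ k := har k hk hd
        have h7 : (Y : ℝ) + 1 ≤ k := by exact_mod_cast h6
        linarith
      exact ⟨ha1, hle, length_le p δ _ hpr hδ0 a (by omega) hle hr, hr, hat⟩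
    have hyl : y * l ≤ y * l * l := Nat.le_mul_of_pos_right _ hl.pos
    have key := two_products p (label Φ) (label_mul Φ) Y (y * l) (y * l * l) l hrl hlabl
      hl.one_lt hlp le_rfl (by
        intro b
        obtain ⟨W, hW1, hW2⟩ := many_rough hS1 p hp.pos Y hY2 (b : ZMod p).val
          ((ZMod.isUnit_iff_coprime _ _).1 (by rw [ZMod.natCast_zmod_val]; exact b.isUnit))
          (Y ^ C) le_rfl
        have hWne : W.Nonempty := by
          rw [← card_pos]
          by_contra hcon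
          have : W.card = 0 := by omega
          rw [this, mul_zero] at hW1
          omega
        obtain ⟨w, hw⟩ := hWne
        obtain ⟨w1, w2, w3, w4⟩ := hW2 w hw
        refine ⟨w, w2, ?_, w4, ?_⟩
        · have h1 := hsize p p hpX' hpX'
          have h2 : 2 * p * (Y ^ C + 1) ≤ 6 * p * (2 * Y ^ C + 1) :=
            Nat.mul_le_mul (by omega) (by omega)
          have h3 : y ≤ y * l := Nat.le_mul_of_pos_right _ hl.pos
          omega
        · have h1 := (ZMod.natCast_eq_natCast_iff _ _ _).2 w1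
          rw [h1, ZMod.natCast_zmod_val])
      (ZMod.unitOfCoprime x hx) t₁ t₂ (by
        rintro ⟨a₁, a₂, ⟨k1, k2, k3, k4⟩, ⟨m1, m2, m3, m4⟩, h5⟩
        refine hno a₁ a₂ (hgood a₁ t₁ k1 k2 k3 k4) (hgood a₂ t₂ m1 m2 m3 m4) ?_
        rw [← ZMod.natCast_eq_natCast_iff]
        simpa using h5)
    intro u v hu hv huy hvy hru hrv hcu hcv huv
    have h5 := key (l * u) (l * v)
      (lt_of_lt_of_le hl.one_lt (Nat.le_mul_of_pos_right _ hu))
      (lt_of_lt_of_le hl.one_lt (Nat.le_mul_of_pos_right _ hv))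
      (by rw [mul_comm]; exact Nat.mul_le_mul_right _ huy)
      (by rw [mul_comm]; exact Nat.mul_le_mul_right _ hvy)
      (hrl.mul hru) (hrl.mul hrv) (Nat.Coprime.mul_left hlp hcu) (huv.mul_left _)
    rw [label_mul Φ _ _ hl.ne_zero hu.ne', label_mul Φ _ _ hl.ne_zero hv.ne'] at h5
    rw [AddSubgroup.mem_bot, sub_eq_zero]
    exact add_left_cancel h5
  refine ⟨?_, ?_⟩
  swap
  · intro p hp hpX hpX' hnot u v hu hv huy hvy hr hcu hcv huv
    have hru : RoughN Y u := by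
      intro k hk hd
      exact_mod_cast hYz.trans_lt (hr k hk (hd.mul_right _))
    have hrv : RoughN Y v := by
      intro k hk hd
      exact_mod_cast hYz.trans_lt (hr k hk (hd.mul_left _))
    have h := hper p hp hpX hpX' hnot u v hu hv (by rw [hy]; exact Nat.le_floor huy)
      (by rw [hy]; exact Nat.le_floor hvy) hru hrv hcu hcv huv
    rwa [AddSubgroup.mem_bot, sub_eq_zero] at h
  rintro p₁ ⟨hp₁, k1, k2, k3⟩ p₂ ⟨hp₂, m1, m2, m3⟩
  by_contra hne
  have hper1 := hper p₁ hp₁ k1 k2 k3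
  have hper2 := hper p₂ hp₂ m1 m2 m3
  have hY1 : Y < p₁ := by
    have : (Y : ℝ) < p₁ := (hYz.trans_lt hδX).trans_le k1
    exact_mod_cast this
  have h31 : 3 < p₁ := by
    have : (3 : ℝ) < p₁ := by linarith
    exact_mod_cast this
  have h32 : 3 < p₂ := by
    have : (3 : ℝ) < p₂ := by linarith
    exact_mod_cast this
  have hbig : 2 * Y ^ C < p₂ := by
    have : ((2 * Y ^ C : ℕ) : ℝ) < p₂ := by
      push_cast
      push_cast at hYC
      linarith
    exact_mod_cast this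
  have hly : l ≤ y := by
    rw [hy]
    apply Nat.le_floor
    calc (l : ℝ) ≤ X := hlX.le
      _ = X ^ (1 : ℝ) := (Real.rpow_one X).symm
      _ ≤ X ^ (1 + η) := Real.rpow_le_rpow_of_exponent_le hX1 (by linarith)
  have hlp : l.Coprime p₁ := by
    rw [Nat.coprime_comm, hp₁.coprime_iff_not_dvd]
    intro hd
    have h1 := Nat.le_of_dvd hl.pos hd
    have h2 : (p₁ : ℝ) ≤ l := by exact_mod_cast h1
    linarith
  have hr1 : RoughN Y 1 := by
    intro k hk hd
    exact absurd (Nat.dvd_one.1 hd) hk.one_lt.ne'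
  have key := const_of_two hS2 (label Φ) ⊥ Y y p₁ p₂ hY2 hp₁ hp₂ hY1 h31 h32 hbig
    (hsize p₁ p₂ k2 m2) hper1 hper2 hne l 1 hl.pos one_pos hly (hl.pos.trans_le hly) hrl hr1 hlp
    (Nat.coprime_one_left _) hl6 (Nat.ModEq.refl _)
  rw [AddSubgroup.mem_bot, hlabl] at key
  have h1 : label Φ 1 = 0 := by
    unfold label
    simp
  rw [h1, sub_zero] at key
  exact absurd key (by decide)

end Pool.Agent.Results.MP_de0709_nt.PrescribedParity
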